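import Pool.Agent.Helper77.PPS.GoalsH

/-!
# Project PP (MP_fc6b1e_nt), part A3: packet PPS-N_HYP
-/

namespace Pool.Agent.Helper4.PPS

open NumberField Polynomial Module IsDedekindDomain Pool.Agent.Helper51.RP
open Pool.Agent.Helper42.PP (Spl Base Tau)
open Pool.Agent.Helper17.PP (Sys)
open Pool.Agent.Helper77.PPS (PSys ms nv gK SV N_LAB H_CHE H_HT H_MER H_G N_HYP pr)

theorem psys_mono {P : Type} {N : P → ℕ} {C C' : ℝ} (h : PSys N C) (hC : C ≤ C') :
    PSys N C' := by
  refine ⟨h.two, fun x F hx hF ↦ (h.cheb x F hx hF).trans ?_⟩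
  exact mul_le_mul_of_nonneg_right hC (by linarith)

theorem n_hyp (h1 : N_LAB) (h2 : H_CHE) (h3 : H_HT) (h4 : H_MER) (h5 : H_G)
    (h6 : Pool.Agent.Helper11.LE.L_CYC) : N_HYP := by
  classical
  intro p _ k _ K M K₁ M₁ _ _ _ _ _ _ _ _ _ _ _ _ _ _ _ _ _ _ ε δ P _ B L T aτ E hT A
  have hcyc := h6 p K K₁ ε ⟨hT.prim, inferInstance, hT.gen⟩
  have hp1 : 1 < p := (Fact.out : p.Prime).one_lt
  have hpr : (0 : ℝ) < (p : ℝ) - 1 := by
    have : (1 : ℝ) < p := by exact_mod_cast hp1
    linarith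
  have hd0 : 0 < finrank K K₁ := finrank_pos
  have hd0' : (0 : ℝ) < finrank K K₁ := by exact_mod_cast hd0
  set κ : ℝ := ((p : ℝ) - 1) / finrank K K₁ with hκ
  have hκ1 : 1 ≤ κ := by
    rw [hκ, le_div_iff₀ hd0', one_mul]
    have h : finrank K K₁ ≤ p - 1 := Nat.le_of_dvd (by omega) hcyc.1
    have h' : ((finrank K K₁ : ℕ) : ℝ) ≤ ((p - 1 : ℕ) : ℝ) := by exact_mod_cast h
    rwa [Nat.cast_sub hp1.le, Nat.cast_one] at h'
  have hmul : finrank K K₁ * finrank K₁ M₁ = finrank K M₁ := finrank_mul_finrank K K₁ M₁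
  have hlt : finrank K K₁ < finrank K M₁ := by
    rw [← hmul]
    exact lt_mul_of_one_lt_right hd0 hT.nt
  have hM0' : (0 : ℝ) < finrank K M₁ := by exact_mod_cast hd0.trans hlt
  set κs : ℝ := ((p : ℝ) - 1) / finrank K M₁ with hκs
  have hs0 : 0 < κs := div_pos hpr hM0'
  have hsκ : κs < κ := by
    rw [hκ, hκs]
    exact div_lt_div_of_pos_left hpr hd0' (by exact_mod_cast hlt)
  obtain ⟨g1, g2, g3, -⟩ := h5 κ hκ1
  obtain ⟨C, hC, hms⟩ := h1 p K M K₁ M₁ ε δ P B
  have hC0 : 0 ≤ C := hC.nonneg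
  have hC' : PSys (B.sys E).N C := hC
  have hC2 : PSys (B.sys E).N (2 * C) := psys_mono hC' (by linarith)
  obtain ⟨Kc, hKc⟩ := h2 C
  obtain ⟨Kh, hKh⟩ := h3 C κ A hκ1
  obtain ⟨Ks, hKs⟩ := h4 C κs
  obtain ⟨Kn, hKn⟩ := h4 (2 * C) (κ - κs)
  have hche := hKc p _ _ _ _ _ _ (B.sys E) hC'
  have hht := hKh p _ _ _ _ _ _ (B.sys E) hC' (fun x hx ↦ by
    have h := (abs_le.1 (hms x hx).1).2
    have h' : ms (B.sys E).N (fun _ ↦ 1) x = ms (fun q : B.LP ↦ nv q.1.1) (fun _ ↦ 1) x := rfl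
    rw [h']
    linarith)
  have hmers := hKs p _ _ _ _ _ _ (B.sys E) {q : B.LP | q.1.1 ∈ B.Vis} hC' (fun x hx ↦ (hms x hx).2)
  have hmern := hKn p _ _ _ _ _ _ (B.sys E) {q : B.LP | q.1.1 ∉ B.Vis} hC2 (fun x hx ↦ by
    have h := (abs_le.1 (hms x hx).1)
    have h' := (abs_le.1 (hms x hx).2)
    have hsum : ms (B.sys E).N ({q : B.LP | q.1.1 ∉ B.Vis}.indicator fun _ ↦ 1) x =
        ms (fun q : B.LP ↦ nv q.1.1) (fun _ ↦ 1) x -
          ms (fun q : B.LP ↦ nv q.1.1) ({q : B.LP | q.1.1 ∈ B.Vis}.indicator fun _ ↦ 1) x := by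
      show ms (fun q : B.LP ↦ nv q.1.1) ({q : B.LP | q.1.1 ∉ B.Vis}.indicator fun _ ↦ 1) x = _
      unfold ms
      rw [← Finset.sum_sub_distrib]
      refine Finset.sum_congr rfl fun q _ ↦ ?_
      by_cases hq : q.1.1 ∈ B.Vis
      · rw [Set.indicator_of_notMem (by simpa using hq), Set.indicator_of_mem (by simpa using hq)]
        ring
      · rw [Set.indicator_of_mem (by simpa using hq), Set.indicator_of_notMem (by simpa using hq)]
        ring
    rw [hsum, abs_le]
    have e : (κ - κs) * Real.log (Real.log x) =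
      κ * Real.log (Real.log x) - κs * Real.log (Real.log x) := by ring
    rw [e]
    constructor <;> linarith [h.1, h.2, h'.1, h'.2])
  set M0 : ℝ := max (max (max Kc Kh) (max Ks Kn)) (max (max (1 / κs) (1 / (κ - κs)))
    (max 1 (2 ^ (κ - 1)))) with hM0
  refine ⟨⌈M0⌉₊, fun K' hK' ↦ ?_⟩
  have hMK : M0 ≤ K' := (Nat.le_ceil M0).trans (by exact_mod_cast hK')
  have b1 : Kc ≤ K' := le_trans ((le_max_left _ _).trans ((le_max_left _ _).trans (le_max_left _ _))) hMK
  have b2 : Kh ≤ K' := le_trans ((le_max_right _ _).trans ((le_max_left _ _).trans (le_max_left _ _))) hMK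
  have b3 : Ks ≤ K' := le_trans ((le_max_left _ _).trans ((le_max_right _ _).trans (le_max_left _ _))) hMK
  have b4 : Kn ≤ K' := le_trans ((le_max_right _ _).trans ((le_max_right _ _).trans (le_max_left _ _))) hMK
  have b5 : 1 / κs ≤ K' := le_trans ((le_max_left _ _).trans ((le_max_left _ _).trans (le_max_right _ _))) hMK
  have b6 : 1 / (κ - κs) ≤ K' :=
    le_trans ((le_max_right _ _).trans ((le_max_left _ _).trans (le_max_right _ _))) hMK
  have b7 : (1 : ℝ) ≤ K' :=
    le_trans ((le_max_left _ _).trans ((le_max_right _ _).trans (le_max_right _ _))) hMK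
  have b8 : (2 : ℝ) ^ (κ - 1) ≤ K' :=
    le_trans ((le_max_right _ _).trans ((le_max_right _ _).trans (le_max_right _ _))) hMK
  have hK0 : (0 : ℝ) < K' := by linarith
  have hinv : ∀ a : ℝ, 0 < a → 1 / a ≤ K' → 1 / (K' : ℝ) ≤ a := by
    intro a ha hle
    rw [div_le_iff₀ ha] at hle
    rw [div_le_iff₀ hK0]
    linarith
  have hlog : ∀ m n : ℕ, 1 ≤ m → m ≤ n → 0 ≤ Real.log ((n : ℝ) / m) := by
    intro m n hm hmn
    refine Real.log_nonneg ?_
    have hm' : (0 : ℝ) < m := by exact_mod_cast hm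
    rw [le_div_iff₀ hm', one_mul]
    exact_mod_cast hmn
  exact
    { one_le := by exact_mod_cast b7
      che := fun j hj ↦ (hche j hj).trans (by gcongr)
      g_one := g1
      g_mono := fun Y X hYX ↦ (g2 Y X hYX).trans
        (le_mul_of_one_le_left (by linarith [g1 X]) b7)
      g_dbl := fun Y ↦ (g3 Y).trans (mul_le_mul_of_nonneg_right b8 (by linarith [g1 Y]))
      ht := by
        intro f hf Y hY P'
        refine (hht f hf Y hY P').trans ?_
        have h0 : 0 < min 1 Y := lt_min one_pos hY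
        have h0' : 0 < gK κ Y := by linarith [g1 Y]
        gcongr
      mers := by
        intro m n hm hmn
        have h := hmers m n hm hmn
        have hl := hlog m n hm hmn
        have h1' : (1 / K' : ℝ) * Real.log (n / m) ≤ κs * Real.log (n / m) :=
          mul_le_mul_of_nonneg_right (hinv κs hs0 b5) hl
        have h2' : (1 / K' : ℝ) * Real.log (n / m) - K' ≤ κs * Real.log (n / m) - Ks := by
          linarith
        refine h2'.trans (h.trans (le_of_eq ?_))
        refine Finset.sum_congr ?_ fun q _ ↦ rfl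
        ext q
        simp only [Finset.mem_filter]
        rfl
      mern := by
        intro m n hm hmn
        have h := hmern m n hm hmn
        have hl := hlog m n hm hmn
        have h1' : (1 / K' : ℝ) * Real.log (n / m) ≤ (κ - κs) * Real.log (n / m) :=
          mul_le_mul_of_nonneg_right (hinv (κ - κs) (by linarith) b6) hl
        have h2' : (1 / K' : ℝ) * Real.log (n / m) - K' ≤ (κ - κs) * Real.log (n / m) - Kn := by
          linarith
        refine h2'.trans (h.trans (le_of_eq ?_))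
        refine Finset.sum_congr ?_ fun q _ ↦ rfl
        ext q
        simp only [Finset.mem_filter]
        rfl }

end Pool.Agent.Helper4.PPS
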